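import Mathlib

/-!
# Bigraphs, cut-involutions and folds
-/

namespace Pool.Agent.R893.HW

/-- A bigraph with left part `A` and right part `B`. -/
structure Bigraph (A B : Type) where
  adj : A → B → Prop

namespace Bigraph

variable {A B : Type} (G : Bigraph A B)

/-- The edge set, a subset of `A × B`. -/
def edges : Set (A × B) := {e | G.adj e.1 e.2}

/-- The underlying simple graph on the vertex set `A ⊕ B`. -/
def graph : SimpleGraph (A ⊕ B) where
  Adj u v := (∃ a b, G.adj a b ∧ u = Sum.inl a ∧ v = Sum.inr b) ∨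
    ∃ a b, G.adj a b ∧ u = Sum.inr b ∧ v = Sum.inl a
  symm := ⟨fun u v h => by
    rcases h with ⟨a, b, h, rfl, rfl⟩ | ⟨a, b, h, rfl, rfl⟩
    · exact Or.inr ⟨a, b, h, rfl, rfl⟩
    · exact Or.inl ⟨a, b, h, rfl, rfl⟩⟩
  loopless := ⟨fun u h => by
    rcases h with ⟨a, b, h, h1, h2⟩ | ⟨a, b, h, h1, h2⟩
    · rw [h1] at h2; cases h2
    · rw [h1] at h2; cases h2⟩

/-- The action of a pair of permutations on the vertex set `A ⊕ B`. -/
def onV (φ : Equiv.Perm A × Equiv.Perm B) : A ⊕ B → A ⊕ B := Sum.map φ.1 φ.2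

/-- The group of automorphisms preserving the two parts. -/
def Aut : Subgroup (Equiv.Perm A × Equiv.Perm B) where
  carrier := {φ | ∀ a b, G.adj (φ.1 a) (φ.2 b) ↔ G.adj a b}
  mul_mem' := by
    intro φ ψ h1 h2 a b
    show G.adj (φ.1 (ψ.1 a)) (φ.2 (ψ.2 b)) ↔ _
    rw [h1, h2]
  one_mem' := fun a b => Iff.rfl
  inv_mem' := by
    intro φ h a b
    show G.adj (φ.1.symm a) (φ.2.symm b) ↔ _
    rw [← h, Equiv.apply_symm_apply, Equiv.apply_symm_apply]

/-- The set of fixed vertices. -/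
def Fix (φ : Equiv.Perm A × Equiv.Perm B) : Set (A ⊕ B) := {v | onV φ v = v}

/-- A cut-involution: an automorphism of order two such that `G - Fix φ` is disconnected. -/
def IsCutInvolution (φ : Equiv.Perm A × Equiv.Perm B) : Prop :=
  φ ∈ G.Aut ∧ φ ≠ 1 ∧ φ * φ = 1 ∧ ¬ (G.graph.induce (Fix φ)ᶜ).Preconnected

/-- `L` is a union of connected components of `G - Fix φ`: it is contained in the complement of
`Fix φ` and closed under adjacency in `G - Fix φ`. -/
def IsUnionOfComponents (φ : Equiv.Perm A × Equiv.Perm B) (L : Set (A ⊕ B)) : Prop :=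
  L ⊆ (Fix φ)ᶜ ∧ ∀ u ∈ L, ∀ v ∈ (Fix φ)ᶜ, G.graph.Adj u v → v ∈ L

/-- A fold: `L`, `Fix φ`, `φ(L)` partition the vertex set. -/
def IsFold (φ : Equiv.Perm A × Equiv.Perm B) (L : Set (A ⊕ B)) : Prop :=
  G.IsCutInvolution φ ∧ G.IsUnionOfComponents φ L ∧
    Disjoint L (Fix φ) ∧ Disjoint L (onV φ '' L) ∧ Disjoint (Fix φ) (onV φ '' L) ∧
    L ∪ Fix φ ∪ onV φ '' L = Set.univ

open Classical in
/-- The left-folding map. -/
noncomputable def leftFold (φ : Equiv.Perm A × Equiv.Perm B) (L : Set (A ⊕ B)) :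
    A ⊕ B → A ⊕ B :=
  fun v => if v ∈ L then v else onV φ v

/-- The subgroup of `Aut G` generated by the cut-involutions which extend to a fold. -/
def foldGroup : Subgroup (Equiv.Perm A × Equiv.Perm B) :=
  Subgroup.closure {φ | ∃ L, G.IsFold φ L}

/-- The inverse image of a set of edges under the left-folding map. -/
def pullEdges (φ : Equiv.Perm A × Equiv.Perm B) (L : Set (A ⊕ B)) (F : Set (A × B)) :
    Set (A × B) :=
  {e | e ∈ G.edges ∧ ∃ e' ∈ F, leftFold φ L (Sum.inl e.1) = Sum.inl e'.1 ∧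
    leftFold φ L (Sum.inr e.2) = Sum.inr e'.2}

/-- Cut-percolating bigraphs. -/
def CutPercolating : Prop :=
  ∃ (m : ℕ) (E : ℕ → Set (A × B)), (∃ e ∈ G.edges, E 0 = {e}) ∧ E m = G.edges ∧
    ∀ i < m, ∃ φ L, G.IsFold φ L ∧ E (i + 1) = G.pullEdges φ L (E i)

/-- `G` is edge-transitive under `Γ`. -/
def EdgeTransitive (Γ : Subgroup (Equiv.Perm A × Equiv.Perm B)) : Prop :=
  G.edges.Nonempty ∧ ∀ e ∈ G.edges, ∀ e' ∈ G.edges, ∃ γ ∈ Γ, γ.1 e.1 = e'.1 ∧ γ.2 e.2 = e'.2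

/-- The inverse image of a set of left vertices under the left-folding map. -/
def pullLeft (φ : Equiv.Perm A × Equiv.Perm B) (L : Set (A ⊕ B)) (U : Set A) : Set A :=
  {a | ∃ a' ∈ U, leftFold φ L (Sum.inl a) = Sum.inl a'}

/-- Left-cut-percolating bigraphs. -/
def LeftCutPercolating : Prop :=
  ∃ (m : ℕ) (U : ℕ → Set A), (∃ a, U 0 = {a}) ∧ U m = Set.univ ∧
    ∀ i < m, ∃ φ L, G.IsFold φ L ∧ U (i + 1) = pullLeft φ L (U i)

/-- A bigraph with left part `A` is left-vertex-transitive under `Γ`. -/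
def LeftTransitive (Γ : Subgroup (Equiv.Perm A × Equiv.Perm B)) : Prop :=
  ∀ a a' : A, ∃ γ ∈ Γ, γ.1 a = a'

end Bigraph

end Pool.Agent.R893.HW
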