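import Pool.Agent.R893.HW.Raw
import Pool.Agent.R893.HW.Bigraph

/-!
# General facts on folds and the swaps of two Heawood graphs
-/

namespace Pool.Agent.R893.HW

namespace Bigraph

variable {A B : Type} {G : Bigraph A B} {φ : Equiv.Perm A × Equiv.Perm B} {L : Set (A ⊕ B)}

lemma IsFold.aut (h : G.IsFold φ L) (a : A) (b : B) : G.adj (φ.1 a) (φ.2 b) ↔ G.adj a b :=
  h.1.1 a b

lemma IsFold.inv1 (h : G.IsFold φ L) (a : A) : φ.1 (φ.1 a) = a := by
  have := congrArg (fun ψ : Equiv.Perm A × Equiv.Perm B => ψ.1 a) h.1.2.2.1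
  simpa using this

lemma IsFold.inv2 (h : G.IsFold φ L) (a : B) : φ.2 (φ.2 a) = a := by
  have := congrArg (fun ψ : Equiv.Perm A × Equiv.Perm B => ψ.2 a) h.1.2.2.1
  simpa using this

lemma IsFold.invV (h : G.IsFold φ L) (v : A ⊕ B) : onV φ (onV φ v) = v := by
  rcases v with a | b
  · simp [onV, h.inv1]
  · simp [onV, h.inv2]

lemma IsFold.cases (h : G.IsFold φ L) (v : A ⊕ B) : onV φ v = v ∨ v ∈ L ∨ onV φ v ∈ L := by
  have h1 : v ∈ L ∪ Fix φ ∪ onV φ '' L := by rw [h.2.2.2.2.2]; trivial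
  rcases h1 with (h1 | h1) | ⟨u, hu, rfl⟩
  · exact Or.inr (Or.inl h1)
  · exact Or.inl h1
  · exact Or.inr (Or.inr (by rwa [h.invV]))

lemma IsFold.not_mem (h : G.IsFold φ L) {v : A ⊕ B} (hv : v ∈ L) : onV φ v ∉ L := fun h1 =>
  Set.disjoint_left.1 h.2.2.2.1 h1 ⟨v, hv, rfl⟩

lemma IsFold.closed (h : G.IsFold φ L) {u v : A ⊕ B} (hu : u ∈ L) (hv : onV φ v ≠ v)
    (huv : G.graph.Adj u v) : v ∈ L :=
  h.2.1.2 u hu v hv huv

lemma adj_lr {a : A} {b : B} (h : G.adj a b) : G.graph.Adj (Sum.inl a) (Sum.inr b) :=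
  Or.inl ⟨a, b, h, rfl, rfl⟩

lemma adj_rl {a : A} {b : B} (h : G.adj a b) : G.graph.Adj (Sum.inr b) (Sum.inl a) :=
  Or.inr ⟨a, b, h, rfl, rfl⟩

end Bigraph

/-- a function constant along edges is constant along reachability -/
lemma const_of_reachable {V : Type} {H : SimpleGraph V} {C : Type} (c : V → C)
    (hc : ∀ u v, H.Adj u v → c u = c v) {u v : V} (h : H.Reachable u v) : c u = c v := by
  obtain ⟨w⟩ := h
  induction w with
  | nil => rfl
  | cons h1 _ ih => exact (hc _ _ h1).trans ih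

/-- affine maps `x ↦ m x + k` of `Z/7` with `m ∈ {1, 2, 4}` -/
def aff (u : Fin 3) (k : Fin 7) : Equiv.Perm (Fin 7) where
  toFun x := (![1, 2, 4] : Fin 3 → Fin 7) u * x + k
  invFun x := (![1, 4, 2] : Fin 3 → Fin 7) u * (x - k)
  left_inv := by revert u k; unfold Function.LeftInverse; decide
  right_inv := by revert u k; unfold Function.RightInverse Function.LeftInverse; decide

lemma aff_inc : ∀ (u : Fin 3) (k p l : Fin 7), inc (aff u k p) (aff u k l) ↔ inc p l := by decide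

lemma aff_flag : ∀ p l : Fin 7, inc p l → ∃ u k, aff u k 0 = p ∧ aff u k 1 = l := by decide

/-- the swap of the two copies, twisted by `aff u k` -/
def swFun (u : Fin 3) (k : Fin 7) (p : Bool × Fin 7) : Bool × Fin 7 :=
  (!p.1, bif p.1 then (aff u k).symm p.2 else aff u k p.2)

lemma swFun_inv (u : Fin 3) (k : Fin 7) : Function.Involutive (swFun u k) := by
  rintro ⟨_ | _, x⟩ <;> simp [swFun]

def sw (u : Fin 3) (k : Fin 7) : Equiv.Perm (Bool × Fin 7) := (swFun_inv u k).toPerm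

lemma sw_apply (u : Fin 3) (k : Fin 7) (p : Bool × Fin 7) : sw u k p = swFun u k p := rfl

lemma sw_sw (u : Fin 3) (k : Fin 7) (p : Bool × Fin 7) : sw u k (sw u k p) = p := swFun_inv u k p

lemma sw_fst (u : Fin 3) (k : Fin 7) (p : Bool × Fin 7) : (sw u k p).1 = !p.1 := rfl

lemma sw_ne (u : Fin 3) (k : Fin 7) (p : Bool × Fin 7) : sw u k p ≠ p := by
  intro h
  have := congrArg Prod.fst h
  rw [sw_fst] at this
  simp at this

lemma sw_adj (u : Fin 3) (k : Fin 7) (p l : Bool × Fin 7) :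
    adj (sw u k p) (sw u k l) ↔ adj p l := by
  have h := aff_inc u k
  have h' : ∀ x y, inc ((aff u k).symm x) ((aff u k).symm y) ↔ inc x y := by
    intro x y
    rw [← h, Equiv.apply_symm_apply, Equiv.apply_symm_apply]
  rcases p with ⟨_ | _, x⟩ <;> rcases l with ⟨_ | _, y⟩ <;>
    simp [sw_apply, swFun, adj, h, h']

end Pool.Agent.R893.HW
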