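import Mathlib

/-!
# Two disjoint copies of the Heawood graph: classification of folds (raw form)
-/

namespace Pool.Agent.R893.HW

/-- incidence of the Fano plane: point `p` is on line `l` iff `l - p ∈ {1, 2, 4}` -/
def inc (p l : Fin 7) : Prop := l - p = 1 ∨ l - p = 2 ∨ l - p = 4

instance : DecidableRel inc := fun p l => by unfold inc; infer_instance

lemma exists_line : ∀ p q : Fin 7, ∃ l, inc p l ∧ inc q l := by decide

lemma line_unique : ∀ p q l m : Fin 7, p ≠ q → inc p l → inc q l → inc p m → inc q m → l = m := by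
  decide

lemma exists_point : ∀ l : Fin 7, ∃ p, inc p l := by decide

lemma third : ∀ l r p : Fin 7, ∃ t, inc t l ∧ t ≠ r ∧ t ≠ p := by decide

lemma off : ∀ l : Fin 7, ∃ r, ¬ inc r l := by decide

lemma inc_iff : ∀ p l : Fin 7, inc p l ↔ p = l - 1 ∨ p = l - 2 ∨ p = l - 4 := by decide

lemma no_four (l a b c d : Fin 7) (ha : inc a l) (hb : inc b l) (hc : inc c l) (hd : inc d l)
    (h1 : a ≠ b) (h2 : a ≠ c) (h3 : a ≠ d) (h4 : b ≠ c) (h5 : b ≠ d) (h6 : c ≠ d) : False := by
  rw [inc_iff] at ha hb hc hd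
  rcases ha with ha | ha | ha <;> rcases hb with hb | hb | hb <;> rcases hc with hc | hc | hc <;>
    rcases hd with hd | hd | hd <;> simp_all

/-- adjacency in the disjoint union of two Heawood graphs -/
def adj (a b : Bool × Fin 7) : Prop := a.1 = b.1 ∧ inc a.2 b.2

instance : DecidableRel adj := fun p l => by unfold adj; infer_instance

lemma two_lines_eq {p q l m : Bool × Fin 7} (h : p ≠ q) (h1 : adj p l) (h2 : adj q l)
    (h3 : adj p m) (h4 : adj q m) : l = m := by
  have h5 : p.2 ≠ q.2 := by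
    intro h6
    exact h (Prod.ext (h1.1.trans h2.1.symm) h6)
  exact Prod.ext (h1.1.symm.trans h3.1) (line_unique _ _ _ _ h5 h1.2 h2.2 h3.2 h4.2)

lemma exists_adj {p q : Bool × Fin 7} (h : p.1 = q.1) : ∃ l, adj p l ∧ adj q l := by
  obtain ⟨l, h1, h2⟩ := exists_line p.2 q.2
  exact ⟨(p.1, l), ⟨rfl, h1⟩, ⟨h.symm, h2⟩⟩

lemma exists_pt (l : Bool × Fin 7) : ∃ p, adj p l := by
  obtain ⟨p, h⟩ := exists_point l.2
  exact ⟨(l.1, p), rfl, h⟩

section

variable (f g : Equiv.Perm (Bool × Fin 7)) (LA LB : Set (Bool × Fin 7))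

/-- raw form of a fold -/
structure RawFold : Prop where
  aut : ∀ a b, adj (f a) (g b) ↔ adj a b
  invf : ∀ a, f (f a) = a
  invg : ∀ b, g (g b) = b
  pa : ∀ a, f a = a ∨ a ∈ LA ∨ f a ∈ LA
  pa1 : ∀ a, a ∈ LA → f a ∉ LA
  pb : ∀ a, g a = a ∨ a ∈ LB ∨ g a ∈ LB
  pb1 : ∀ a, a ∈ LB → g a ∉ LB
  c1 : ∀ a b, a ∈ LA → g b ≠ b → adj a b → b ∈ LB
  c2 : ∀ a b, b ∈ LB → f a ≠ a → adj a b → a ∈ LA

variable {f g LA LB}

lemma copy_iff (h : ∀ a b, adj (f a) (g b) ↔ adj a b) (p q : Bool × Fin 7) :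
    (f p).1 = (f q).1 ↔ p.1 = q.1 := by
  constructor
  · intro h1
    obtain ⟨l, h2, h3⟩ := exists_adj h1
    have h4 := (h p (g.symm l)).1 (by rwa [Equiv.apply_symm_apply])
    have h5 := (h q (g.symm l)).1 (by rwa [Equiv.apply_symm_apply])
    exact h4.1.trans h5.1.symm
  · intro h1
    obtain ⟨l, h2, h3⟩ := exists_adj h1
    exact ((h _ _).2 h2).1.trans ((h _ _).2 h3).1.symm

lemma copy_cases (h : ∀ a b, adj (f a) (g b) ↔ adj a b) :
    ((∀ p, (f p).1 = p.1) ∧ ∀ l, (g l).1 = l.1) ∨ ((∀ p, (f p).1 = !p.1) ∧ ∀ l, (g l).1 = !l.1) := by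
  have key : (∀ p, (f p).1 = p.1) ∨ (∀ p, (f p).1 = !p.1) := by
    by_cases h0 : (f (false, 0)).1 = false
    · left
      intro p
      have h1 := copy_iff h p (false, 0)
      rw [h0] at h1
      rcases hp : p.1 with _ | _
      · exact h1.2 hp
      · by_contra h2
        have h3 := h1.1 (by simpa using h2)
        rw [hp] at h3
        simp at h3
    · right
      have h0' : (f (false, 0)).1 = true := by simpa using h0
      intro p
      have h1 := copy_iff h p (false, 0)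
      rw [h0'] at h1
      rcases hp : p.1 with _ | _
      · exact h1.2 hp
      · by_contra h2
        have h3 := h1.1 (by simpa using h2)
        rw [hp] at h3
        simp at h3
  rcases key with h1 | h1
  · left
    refine ⟨h1, fun l => ?_⟩
    obtain ⟨p, hp⟩ := exists_pt l
    have h2 := (h _ _).2 hp
    rw [← h2.1, h1, hp.1]
  · right
    refine ⟨h1, fun l => ?_⟩
    obtain ⟨p, hp⟩ := exists_pt l
    have h2 := (h _ _).2 hp
    rw [← h2.1, h1, hp.1]

/-- if copies are preserved, the fold is trivial -/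
lemma preserve (h : RawFold f g LA LB) (hf : ∀ p, (f p).1 = p.1) : ∀ a, f a = a := by
  by_contra hne
  push Not at hne
  obtain ⟨p0, hp0⟩ := hne
  -- a point `p ∈ LA`, `q = f p ∉ LA`
  obtain ⟨p, hp, hpf⟩ : ∃ p, p ∈ LA ∧ f p ≠ p := by
    rcases h.pa p0 with h1 | h1 | h1
    · exact absurd h1 hp0
    · exact ⟨p0, h1, hp0⟩
    · refine ⟨f p0, h1, ?_⟩
      rw [h.invf]; exact fun h2 => hp0 h2.symm
  have hq : f p ∉ LA := h.pa1 p hp
  -- step 1: no other point of the copy in `f LA`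
  have step1 : ∀ r, r.1 = p.1 → r ≠ f p → f r ∈ LA → False := by
    intro r hr hrq hrL
    have hrL' : r ∉ LA := fun h1 => h.pa1 r h1 hrL
    have hrf : f r ≠ r := fun h1 => hrL' (h1 ▸ hrL)
    have hrp : r ≠ p := fun h1 => hrL' (h1 ▸ hp)
    obtain ⟨l, hl1, hl2⟩ := exists_adj hr
    -- l is fixed
    have hl : g l = l := by
      by_contra hl
      rcases h.pb l with h1 | h1 | h1
      · exact hl h1
      · exact hrL' (h.c2 r l h1 hrf hl1)
      · have h2 := (h.aut p l).2 hl2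
        refine hq (h.c2 (f p) (g l) h1 ?_ h2)
        rw [h.invf]; exact fun h3 => hpf h3.symm
    have h3 : adj (f p) l := by have := (h.aut p l).2 hl2; rwa [hl] at this
    have h4 : adj (f r) l := by have := (h.aut r l).2 hl1; rwa [hl] at this
    have e : ∀ {a b : Bool × Fin 7}, adj a l → adj b l → a ≠ b → a.2 ≠ b.2 := by
      intro a b ha hb hab h5
      exact hab (Prod.ext (ha.1.trans hb.1.symm) h5)
    have hfrq : f r ≠ f p := fun h5 => hrp (f.injective h5)
    have hfrp : f r ≠ p := by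
      intro h5
      apply hrq
      rw [← h5, h.invf]
    exact no_four l.2 r.2 p.2 (f p).2 (f r).2 hl1.2 hl2.2 h3.2 h4.2
      (e hl1 hl2 hrp) (e hl1 h3 hrq) (e hl1 h4 fun h5 => hrf h5.symm)
      (e hl2 h3 fun h5 => hpf h5.symm) (e hl2 h4 fun h5 => hfrp h5.symm)
      (e h3 h4 fun h5 => hfrq h5.symm)
  -- step 2: all other points are fixed
  have step2 : ∀ r, r.1 = p.1 → r ≠ p → r ≠ f p → f r = r := by
    intro r hr hrp hrq
    rcases h.pa r with h1 | h1 | h1
    · exact h1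
    · exfalso
      apply step1 (f r) ((hf r).trans hr) (fun h2 => hrp (f.injective h2))
      rwa [h.invf]
    · exact (step1 r hr hrq h1).elim
  obtain ⟨l, hl1, hl2⟩ := exists_adj (hf p)
  obtain ⟨r', hr'⟩ := off l.2
  set r : Bool × Fin 7 := (p.1, r') with hrdef
  have hrl : ¬ adj r l := fun h1 => hr' h1.2
  have hrp : r ≠ p := fun h1 => hrl (h1 ▸ hl2)
  have hrq : r ≠ f p := fun h1 => hrl (h1 ▸ hl1)
  obtain ⟨m, hm1, hm2⟩ := exists_adj (p := r) (q := p) rfl
  have hqm : ¬ adj (f p) m := by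
    intro h1
    have h2 : l = m := two_lines_eq hpf hl1 hl2 h1 hm2
    exact hrl (h2 ▸ hm1)
  obtain ⟨t', ht1, ht2, ht3⟩ := third m.2 r.2 p.2
  set t : Bool × Fin 7 := (p.1, t') with htdef
  have htm : adj t m := ⟨hm2.1, ht1⟩
  have htr : t ≠ r := fun h1 => ht2 (by rw [← h1])
  have htp : t ≠ p := fun h1 => ht3 (by rw [← h1])
  have htq : t ≠ f p := fun h1 => hqm (h1 ▸ htm)
  have hft := step2 t rfl htp htq
  have hfr := step2 r rfl hrp hrq
  have h5 : adj t (g m) := by have := (h.aut t m).2 htm; rwa [hft] at this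
  have h6 : adj r (g m) := by have := (h.aut r m).2 hm1; rwa [hfr] at this
  have h7 : g m = m := two_lines_eq htr h5 h6 htm hm1
  have h8 := (h.aut p m).2 hm2
  rw [h7] at h8
  exact hqm h8

/-- points fixed implies lines fixed -/
lemma lines_fixed (h : ∀ a b, adj (f a) (g b) ↔ adj a b) (hf : ∀ a, f a = a) : ∀ b, g b = b := by
  intro b
  obtain ⟨p, hp⟩ := exists_pt b
  obtain ⟨t', ht1, ht2, -⟩ := third b.2 p.2 p.2
  have ht : adj (b.1, t') b := ⟨rfl, ht1⟩
  have h1 := (h _ _).2 hp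
  have h2 := (h _ _).2 ht
  rw [hf] at h1 h2
  exact two_lines_eq (p := (b.1, t')) (q := p) (fun h3 => ht2 (by rw [← h3])) h2 h1 ht hp

theorem classify (h : RawFold f g LA LB) :
    ((∀ a, f a = a) ∧ ∀ b, g b = b) ∨
    ∃ s : Bool, (∀ a, (f a).1 = !a.1) ∧ (∀ b, (g b).1 = !b.1) ∧ (∀ a, a ∈ LA ↔ a.1 = s) ∧
      ∀ b, b ∈ LB ↔ b.1 = s := by
  rcases copy_cases h.aut with ⟨h1, h2⟩ | ⟨h1, h2⟩
  · left
    have := preserve h h1
    exact ⟨this, lines_fixed h.aut this⟩
  · right
    have nf : ∀ a, f a ≠ a := by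
      intro a ha
      have := h1 a
      rw [ha] at this
      simp at this
    have ng : ∀ a, g a ≠ a := by
      intro a ha
      have := h2 a
      rw [ha] at this
      simp at this
    have same : ∀ p q : Bool × Fin 7, p.1 = q.1 → p ∈ LA → q ∈ LA := by
      intro p q hpq hp
      obtain ⟨l, hl1, hl2⟩ := exists_adj hpq
      exact h.c2 q l (h.c1 p l hp (ng l) hl1) (nf q) hl2
    obtain ⟨p, hp⟩ : ∃ p, p ∈ LA := by
      rcases h.pa (false, 0) with h3 | h3 | h3
      · exact absurd h3 (nf _)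
      · exact ⟨_, h3⟩
      · exact ⟨_, h3⟩
    have hA : ∀ a, a ∈ LA ↔ a.1 = p.1 := by
      intro a
      constructor
      · intro ha
        by_contra hne
        have h3 : (f a).1 = p.1 := by
          rw [h1]
          revert hne
          cases a.1 <;> cases p.1 <;> simp
        exact h.pa1 a ha (same p (f a) h3.symm hp)
      · intro ha
        exact same p a ha.symm hp
    refine ⟨p.1, h1, h2, hA, ?_⟩
    intro b
    obtain ⟨a, ha⟩ := exists_pt b
    rw [← ha.1, ← hA a]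
    exact ⟨fun hb => h.c2 a b hb (nf a) ha, fun hb => h.c1 a b hb (ng b) ha⟩

end

end Pool.Agent.R893.HW
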